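import Pool.Agent.X55.FSq.Prm

set_option autoImplicit false

/-! Squares of primes below the Frobenius number, for a fixed smaller generator. -/

namespace Pool.Agent.X55.FSq

open Finset

/-- the group of units has exponent two only for the divisors of `24` -/
theorem dvd24 {q : ℕ} (hq : 1 ≤ q) (h : ∀ c : ℕ, Nat.Coprime c q → c ^ 2 ≡ 1 [MOD q]) : q ∣ 24 := by
  have key : ∀ c : ℕ, 1 ≤ c → Nat.Coprime c q → q ∣ c ^ 2 - 1 := by
    intro c hc hcq
    exact (Nat.modEq_iff_dvd' (Nat.one_le_pow _ _ hc)).mp (h c hcq).symm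
  by_cases h5 : 5 ∣ q
  · exfalso
    have : NeZero q := ⟨by omega⟩
    obtain ⟨u, hu⟩ := ZMod.unitsMap_surjective h5 (ZMod.unitOfCoprime 2 (by norm_num))
    have h1 := h (u : ZMod q).val (ZMod.val_coe_unit_coprime u)
    have h2 : ((u : ZMod q).val) ^ 2 ≡ 1 [MOD 5] := h1.of_dvd h5
    have h3 : (((u : ZMod q).val : ℕ) : ZMod 5) = 2 := by
      have := congrArg (fun v : (ZMod 5)ˣ => (v : ZMod 5)) hu
      simp only [ZMod.unitsMap_val, ZMod.coe_unitOfCoprime] at this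
      rw [ZMod.natCast_val]
      exact_mod_cast this
    have h4 : ((((u : ZMod q).val) ^ 2 : ℕ) : ZMod 5) = ((1 : ℕ) : ZMod 5) :=
      (ZMod.natCast_eq_natCast_iff _ _ _).mpr h2
    rw [Nat.cast_pow, h3] at h4
    exact absurd h4 (by decide)
  · have h6 : Nat.Coprime 5 q := (Nat.Prime.coprime_iff_not_dvd (by norm_num)).mpr h5
    have := key 5 (by norm_num) h6
    norm_num at this
    exact this

theorem rep_of {q b p r : ℕ} (h1 : b * r ≤ p ^ 2) (h2 : p ^ 2 ≡ b * r [MOD q]) :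
    ∃ x y : ℕ, p ^ 2 = q * x + b * y := by
  obtain ⟨x, hx⟩ := (Nat.modEq_iff_dvd' h1).mp h2.symm
  exact ⟨x, r, by omega⟩

/-- for a fixed smaller generator `q ≥ 3` -/
theorem fixed {q : ℕ} (hq : 3 ≤ q) : ∃ B : ℕ, ∀ b : ℕ, B ≤ b → Nat.Coprime q b →
    (∃ p : ℕ, p.Prime ∧ p ^ 2 + q + b ≤ q * b ∧ ∃ x y : ℕ, p ^ 2 = q * x + b * y) ∨
    ((q = 6 ∧ b % 6 = 5) ∨ (q = 8 ∧ b % 8 = 7) ∨ (q = 12 ∧ b % 12 = 11) ∨
      (q = 24 ∧ b % 24 = 23)) := by
  classical
  have hqr : (3 : ℝ) ≤ q := by exact_mod_cast hq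
  -- the ratio
  obtain ⟨ρ, hρ⟩ : ∃ ρ : ℝ, ρ = Real.sqrt (((q : ℝ) - 3 / 2) / (q - 2)) := ⟨_, rfl⟩
  have hρsq : ρ ^ 2 * ((q : ℝ) - 2) = q - 3 / 2 := by
    rw [hρ, Real.sq_sqrt (by apply div_nonneg <;> linarith)]
    have : (q : ℝ) - 2 ≠ 0 := by linarith
    field_simp
  have hρ1 : 1 < ρ := by
    rw [hρ]
    apply Real.lt_sqrt_of_sq_lt
    rw [lt_div_iff₀ (by linarith)]
    linarith
  have hX : ∀ c : ℕ, ∃ X : ℝ, Nat.Coprime c q → ∀ x : ℝ, X ≤ x →
      ∃ p : ℕ, p.Prime ∧ p ≡ c [MOD q] ∧ x < p ∧ (p : ℝ) ≤ ρ * x := by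
    intro c
    by_cases hc : Nat.Coprime c q
    · obtain ⟨X, h⟩ := prime_between (by omega) hc hρ1
      exact ⟨X, fun _ => h⟩
    · exact ⟨0, fun h => absurd h hc⟩
  choose X hX using hX
  obtain ⟨Y, hY⟩ : ∃ Y : ℝ, ∀ c ∈ range q, X c ≤ Y :=
    ⟨∑ c ∈ range q, |X c|, fun c hc => (le_abs_self _).trans
      (single_le_sum (f := fun c => |X c|) (fun _ _ => abs_nonneg _) hc)⟩
  obtain ⟨B0, hB0⟩ := exists_nat_ge (Y ^ 2)
  refine ⟨B0 + 2 * q + 6, fun b hb hqb => ?_⟩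
  have hbr : Y ^ 2 ≤ (b : ℝ) := by
    have : (B0 : ℝ) ≤ b := by exact_mod_cast (by omega : B0 ≤ b)
    linarith
  by_cases hcase : ∃ c : ℕ, Nat.Coprime c q ∧ ¬ q ∣ c ^ 2 + b
  · left
    obtain ⟨c, hcq, hcb⟩ := hcase
    have : NeZero q := ⟨by omega⟩
    -- the residue `r`
    obtain ⟨r, hrq, hr⟩ : ∃ r : ℕ, r < q ∧ b * r ≡ c ^ 2 [MOD q] := by
      have hu : IsUnit (b : ZMod q) := (ZMod.isUnit_iff_coprime b q).mpr hqb.symm
      obtain ⟨v, hv⟩ := hu
      refine ⟨(((v⁻¹ : (ZMod q)ˣ) : ZMod q) * (c : ZMod q) ^ 2).val, ZMod.val_lt _, ?_⟩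
      rw [← ZMod.natCast_eq_natCast_iff]
      push_cast
      rw [ZMod.natCast_zmod_val, ← hv, ← mul_assoc, Units.mul_inv, one_mul]
    have hr2 : r ≤ q - 2 := by
      by_contra hcon
      have hr3 : r = q - 1 := by omega
      apply hcb
      have h1 : b * r + b ≡ c ^ 2 + b [MOD q] := hr.add_right b
      have h2 : b * r + b = q * b := by
        rw [hr3]
        have : b * (q - 1) + b = b * (q - 1 + 1) := by ring
        rw [this, Nat.sub_add_cancel (by omega), mul_comm]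
      rw [h2] at h1
      exact (Nat.modEq_zero_iff_dvd).mp (h1.symm.trans (Nat.modEq_zero_iff_dvd.mpr (dvd_mul_right q b)))
    obtain ⟨x, hx⟩ : ∃ x : ℝ, x = Real.sqrt (b * ((q : ℝ) - 2)) := ⟨_, rfl⟩
    have hxsq : x ^ 2 = b * ((q : ℝ) - 2) := by
      rw [hx, Real.sq_sqrt (by apply mul_nonneg (Nat.cast_nonneg _); linarith)]
    have hx0 : 0 ≤ x := by rw [hx]; exact Real.sqrt_nonneg _
    have hYx : X (c % q) ≤ x := by
      refine (hY _ (mem_range.mpr (Nat.mod_lt _ (by omega)))).trans ?_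
      refine (le_abs_self Y).trans ?_
      rw [hx]
      apply Real.le_sqrt_of_sq_le
      rw [sq_abs]
      have : (b : ℝ) * 1 ≤ b * ((q : ℝ) - 2) := by
        apply mul_le_mul_of_nonneg_left _ (Nat.cast_nonneg _)
        linarith
      linarith
    have hcm : Nat.Coprime (c % q) q := by
      rw [Nat.coprime_iff_gcd_eq_one, ← Nat.gcd_rec, Nat.gcd_comm]
      exact hcq
    obtain ⟨p, hp, hpc, hp1, hp2⟩ := hX (c % q) hcm x hYx
    refine ⟨p, hp, ?_, rep_of (r := r) ?_ ?_⟩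
    · -- the upper bound
      have h1 : (p : ℝ) ^ 2 ≤ (ρ * x) ^ 2 := pow_le_pow_left₀ (Nat.cast_nonneg _) hp2 2
      have h2 : (ρ * x) ^ 2 = b * (q - 3 / 2) := by
        rw [mul_pow, hxsq, ← hρsq]
        ring
      have h3 : 2 * (q : ℝ) ≤ b := by exact_mod_cast (by omega : 2 * q ≤ b)
      have h4 : (p : ℝ) ^ 2 + q + b ≤ q * b := by
        rw [h2] at h1
        nlinarith
      exact_mod_cast h4
    · have h1 : x ^ 2 ≤ (p : ℝ) ^ 2 := pow_le_pow_left₀ hx0 hp1.le 2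
      have h2 : (b : ℝ) * r ≤ b * ((q : ℝ) - 2) := by
        apply mul_le_mul_of_nonneg_left _ (Nat.cast_nonneg _)
        have : (r : ℝ) + 2 ≤ q := by exact_mod_cast (by omega : r + 2 ≤ q)
        linarith
      have h3 : (b : ℝ) * r ≤ (p : ℝ) ^ 2 := by linarith
      exact_mod_cast h3
    · have h1 : p ≡ c [MOD q] := hpc.trans (Nat.mod_modEq c q)
      exact (h1.pow 2).trans hr.symm
  · -- the exceptional residues
    push Not at hcase
    have h1 : q ∣ b + 1 := by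
      have := hcase 1 (Nat.coprime_one_left q)
      rwa [one_pow, add_comm] at this
    have h24 : q ∣ 24 := by
      apply dvd24 (by omega)
      intro c hc
      have h2 : c ^ 2 + b ≡ 1 + b [MOD q] := by
        have e1 : c ^ 2 + b ≡ 0 [MOD q] := Nat.modEq_zero_iff_dvd.mpr (hcase c hc)
        have e2 : 1 + b ≡ 0 [MOD q] := Nat.modEq_zero_iff_dvd.mpr (by rwa [add_comm] at h1)
        exact e1.trans e2.symm
      exact Nat.ModEq.add_right_cancel' b h2
    have hq24 : q ≤ 24 := Nat.le_of_dvd (by norm_num) h24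
    have hb6 : 6 ≤ b := by omega
    have hcases : q = 3 ∨ q = 4 ∨ q = 6 ∨ q = 8 ∨ q = 12 ∨ q = 24 := by
      interval_cases q <;> simp_all
    rcases hcases with rfl | rfl | rfl | rfl | rfl | rfl
    · left
      exact ⟨3, by norm_num, by omega, 3, 0, by norm_num⟩
    · left
      exact ⟨2, by norm_num, by omega, 1, 0, by norm_num⟩
    · right; left; exact ⟨rfl, by omega⟩
    · right; right; left; exact ⟨rfl, by omega⟩
    · right; right; right; left; exact ⟨rfl, by omega⟩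
    · right; right; right; right; exact ⟨rfl, by omega⟩

end Pool.Agent.X55.FSq
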