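import Pool.Agent.X55.Art.Main
import Pool.Agent.Helper923.PNT

set_option autoImplicit false

/-! Primes of a fixed residue class in the intervals `(x, ρ x]`. -/

namespace Pool.Agent.X55.FSq

open Finset Filter Topology
open Pool.Agent.H442R2.KF (piN piAP Er)
open Pool.Agent.X55.Art (piN_eq sw)

theorem pap_tendsto {q c : ℕ} (hq : 1 ≤ q) (hc : Nat.Coprime c q) :
    Tendsto (fun x : ℝ => (piAP ⌊x⌋₊ q c : ℝ) * Real.log x / x) atTop
      (𝓝 (1 / (Nat.totient q : ℝ))) := by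
  obtain ⟨C, hC, hsw⟩ := sw 2
  have h1 := Pool.Agent.Helper923.PNT.pi_tendsto
  have h2 : Tendsto (fun x : ℝ => (1 / (Nat.totient q : ℝ)) *
      ((Nat.primeCounting ⌊x⌋₊ : ℝ) * Real.log x / x)) atTop
      (𝓝 ((1 / (Nat.totient q : ℝ)) * 1)) := h1.const_mul _
  have h3 : Tendsto (fun x : ℝ => Er ⌊x⌋₊ q c * Real.log x / x) atTop (𝓝 0) := by
    have hl : Tendsto (fun x : ℝ => (4 * C) / Real.log x) atTop (𝓝 0) :=
      tendsto_const_nhds.div_atTop Real.tendsto_log_atTop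
    apply squeeze_zero_norm' _ hl
    have hev : ∀ᶠ x : ℝ in atTop, (q : ℝ) ≤ ((⌊x⌋₊ : ℕ) : ℝ) ^ (1 / 4 : ℝ) := by
      have t1 : Tendsto (fun x : ℝ => ((⌊x⌋₊ : ℕ) : ℝ)) atTop atTop :=
        tendsto_natCast_atTop_atTop.comp tendsto_nat_floor_atTop
      have t2 : Tendsto (fun x : ℝ => ((⌊x⌋₊ : ℕ) : ℝ) ^ (1 / 4 : ℝ)) atTop atTop :=
        (tendsto_rpow_atTop (by norm_num)).comp t1
      exact t2.eventually (eventually_ge_atTop _)
    filter_upwards [hev, eventually_ge_atTop (16 : ℝ)] with x hx1 hx2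
    have hxpos : 0 < x := by linarith
    have hn3 : 3 ≤ ⌊x⌋₊ := Nat.le_floor (by push_cast; linarith)
    have hb := hsw ⌊x⌋₊ hn3 q c hq hx1 hc
    set n : ℕ := ⌊x⌋₊ with hn
    have hnx : (n : ℝ) ≤ x := Nat.floor_le hxpos.le
    have hxn : x < n + 1 := Nat.lt_floor_add_one x
    have hn15 : (15 : ℝ) < n := by linarith
    have hlogx : 0 < Real.log x := Real.log_pos (by linarith)
    have hsq : x ≤ (n : ℝ) ^ 2 := by nlinarith
    have hlog : Real.log x / 2 ≤ Real.log n := by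
      have := Real.log_le_log hxpos hsq
      rw [Real.log_pow] at this
      push_cast at this
      linarith
    have hlogn : 0 < Real.log n := by linarith
    rw [Real.norm_eq_abs, abs_div, abs_mul, abs_of_pos hlogx, abs_of_pos hxpos,
      div_le_div_iff₀ hxpos hlogx]
    have e1 : |Er n q c| ≤ C * (x / (Real.log x / 2) ^ 2) := by
      refine hb.trans ?_
      apply mul_le_mul_of_nonneg_left _ hC.le
      apply div_le_div₀ hxpos.le hnx (by positivity)
      exact pow_le_pow_left₀ (by positivity) hlog 2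
    have e2 : C * (x / (Real.log x / 2) ^ 2) * Real.log x * Real.log x = 4 * C * x := by
      field_simp
      ring
    calc |Er n q c| * Real.log x * Real.log x ≤
        C * (x / (Real.log x / 2) ^ 2) * Real.log x * Real.log x := by
          apply mul_le_mul_of_nonneg_right _ hlogx.le
          exact mul_le_mul_of_nonneg_right e1 hlogx.le
      _ = 4 * C * x := e2
  have h4 := h2.add h3
  rw [mul_one, add_zero] at h4
  refine h4.congr fun x => ?_
  unfold Er
  rw [piN_eq]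
  ring

theorem prime_between {q c : ℕ} (hq : 1 ≤ q) (hc : Nat.Coprime c q) {ρ : ℝ} (hρ : 1 < ρ) :
    ∃ X : ℝ, ∀ x : ℝ, X ≤ x → ∃ p : ℕ, p.Prime ∧ p ≡ c [MOD q] ∧ x < p ∧ (p : ℝ) ≤ ρ * x := by
  have hρ0 : 0 < ρ := by linarith
  have hφ : (0 : ℝ) < Nat.totient q := by exact_mod_cast Nat.totient_pos.mpr hq
  have h1 := pap_tendsto hq hc
  have hmul : Tendsto (fun x : ℝ => ρ * x) atTop atTop := tendsto_id.const_mul_atTop hρ0
  have h2 := h1.comp hmul
  -- the quotient of the logarithms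
  have h3 : Tendsto (fun x : ℝ => Real.log (ρ * x) / Real.log x) atTop (𝓝 1) := by
    have t1 : Tendsto (fun x : ℝ => Real.log ρ / Real.log x + 1) atTop (𝓝 (0 + 1)) :=
      (tendsto_const_nhds.div_atTop Real.tendsto_log_atTop).add_const 1
    rw [zero_add] at t1
    refine t1.congr' ?_
    filter_upwards [eventually_gt_atTop (1 : ℝ)] with x hx
    have hlog : 0 < Real.log x := Real.log_pos hx
    rw [Real.log_mul hρ0.ne' (by linarith), add_div, div_self hlog.ne']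
  have h4 : Tendsto (fun x : ℝ => ((piAP ⌊x⌋₊ q c : ℝ) * Real.log x / x) *
      (Real.log (ρ * x) / Real.log x) * (1 / ρ)) atTop
      (𝓝 ((1 / (Nat.totient q : ℝ)) * 1 * (1 / ρ))) := (h1.mul h3).mul_const _
  have h5 := h2.sub h4
  have hpos : (0 : ℝ) < 1 / (Nat.totient q : ℝ) - (1 / (Nat.totient q : ℝ)) * 1 * (1 / ρ) := by
    have : 1 / ρ < 1 := by rw [div_lt_one hρ0]; exact hρ
    have h6 : 0 < 1 / (Nat.totient q : ℝ) := by positivity
    nlinarith
  have h6 := h5.eventually (lt_mem_nhds hpos)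
  obtain ⟨X, hX⟩ := eventually_atTop.mp h6
  refine ⟨max X 2, fun x hx => ?_⟩
  have hxX : X ≤ x := le_trans (le_max_left _ _) hx
  have hx2 : (2 : ℝ) ≤ x := le_trans (le_max_right _ _) hx
  have h7 := hX x hxX
  simp only [Function.comp] at h7
  have hlog : 0 < Real.log x := Real.log_pos (by linarith)
  have hlogρ : 0 < Real.log (ρ * x) := Real.log_pos (by nlinarith)
  have h8 : (piAP ⌊x⌋₊ q c : ℝ) * Real.log x / x * (Real.log (ρ * x) / Real.log x) * (1 / ρ) =
      (piAP ⌊x⌋₊ q c : ℝ) * (Real.log (ρ * x) / (ρ * x)) := by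
    field_simp
  rw [h8] at h7
  have h9 : (piAP ⌊ρ * x⌋₊ q c : ℝ) * Real.log (ρ * x) / (ρ * x) =
      (piAP ⌊ρ * x⌋₊ q c : ℝ) * (Real.log (ρ * x) / (ρ * x)) := by ring
  rw [h9, ← sub_mul] at h7
  have h10 : 0 < Real.log (ρ * x) / (ρ * x) := by positivity
  have h11 : (piAP ⌊x⌋₊ q c : ℝ) < piAP ⌊ρ * x⌋₊ q c := by
    have := (mul_pos_iff_of_pos_right h10).mp h7
    linarith
  have h12 : piAP ⌊x⌋₊ q c < piAP ⌊ρ * x⌋₊ q c := by exact_mod_cast h11
  unfold Pool.Agent.H442R2.KF.piAP at h12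
  obtain ⟨p, hp1, hp2⟩ := exists_mem_notMem_of_card_lt_card h12
  rw [mem_filter, mem_Icc] at hp1 hp2
  have hp3 : ¬ p ≤ ⌊x⌋₊ := fun h => hp2 ⟨⟨hp1.1.1, h⟩, hp1.2⟩
  refine ⟨p, hp1.2.1, hp1.2.2, ?_, ?_⟩
  · exact (Nat.floor_lt (by linarith)).mp (not_le.mp hp3)
  · exact (Nat.le_floor_iff (by positivity)).mp hp1.1.2

end Pool.Agent.X55.FSq
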